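import Mathlib
import Pool.Agent.N781.P.All

/-! The transference theorem for fixed linear polynomials. -/

namespace Pool.Agent.N781.P

open Finset Pool.Agent.N675 Pool.Agent.N781.A

theorem tr_fix (k t R : ℕ) (a b : Fin k → ℤ) (α β : Fin t → ℤ) (hk : 0 < k) (ha : ∀ i, a i ≠ 0)
    (hα : ∀ j, α j ≠ 0) (hαβ : ∀ j j', j ≠ j' → α j * β j' ≠ α j' * β j) (ε : ℝ)
    (hε : 0 < ε) : ∃ (ε' : ℝ) (K : ℕ), 0 < ε' ∧ ∀ D x : ℕ, K ≤ D → D ≤ R * x →
      ∀ F F' : Fin k → ℤ → ℂ, (∀ i m, ‖F i m‖ ≤ 1) → (∀ i m, ‖F' i m‖ ≤ 1) →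
        avr D (fun d => ‖cc a b F x d - cc a b F' x d‖ ^ 2) ≤ ε' →
        ∑ d ∈ Icc (1 : ℤ) D, (∏ j, ArithmeticFunction.vonMangoldt (α j * d + β j).natAbs)
          * ‖cc a b F x d - cc a b F' x d‖ ≤ ε * D := by
  classical
  obtain ⟨w₀, hw₀, hw⟩ := tr' k t R 1 a b α hk ha hα ε hε
  set w : ℕ := w₀ + ∑ j, ∑ j', (α j' * β j - α j * β j').natAbs + 1 with hwdef
  obtain ⟨ε', K1, hε', hK1⟩ := hw w (by omega)
  refine ⟨ε', K1 + ∑ j, (β j).natAbs + 1, hε', fun D x hD hDx F F' hF hF' hms => ?_⟩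
  have hdet : ∀ j j', j ≠ j' → α j' * β j - α j * β j' ≠ 0 := by
    intro j j' hjj h
    exact hαβ j j' hjj (by linarith)
  have hempty : (do let a ← pw w D; pure (a : ℤ) : Finset ℤ).filter (fun p => ∃ j j', j ≠ j' ∧
      p ∣ α j' * β j - α j * β j') = ∅ := by
    rw [Finset.filter_eq_empty_iff]
    rintro q hq ⟨j, j', hjj, hdvd⟩
    simp only [Finset.bind_def, Finset.pure_def, Finset.mem_sup, Finset.mem_singleton] at hq
    obtain ⟨p, hp, rfl⟩ := hq
    have hp' : w < p := (Finset.mem_filter.mp hp).2.2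
    have h1 : p ≤ (α j' * β j - α j * β j').natAbs := by
      have h2 := Int.natAbs_dvd_natAbs.2 hdvd
      rw [Int.natAbs_natCast] at h2
      exact Nat.le_of_dvd (Int.natAbs_pos.2 (hdet j j' hjj)) h2
    have h2 : (α j' * β j - α j * β j').natAbs ≤ ∑ j', (α j' * β j - α j * β j').natAbs :=
      Finset.single_le_sum (f := fun j' => (α j' * β j - α j * β j').natAbs)
        (fun _ _ => Nat.zero_le _) (Finset.mem_univ j')
    have h3 : ∑ j', (α j' * β j - α j * β j').natAbs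
        ≤ ∑ j, ∑ j', (α j' * β j - α j * β j').natAbs :=
      Finset.single_le_sum (f := fun j => ∑ j', (α j' * β j - α j * β j').natAbs)
        (fun _ _ => Nat.zero_le _) (Finset.mem_univ j)
    omega
  have hβ : ∀ j, |β j| ≤ (D : ℤ) ^ 1 := by
    intro j
    have h2 : (β j).natAbs ≤ ∑ j, (β j).natAbs :=
      Finset.single_le_sum (f := fun j => (β j).natAbs) (fun _ _ => Nat.zero_le _)
        (Finset.mem_univ j)
    rw [pow_one, Int.abs_eq_natAbs]
    exact_mod_cast (by omega : (β j).natAbs ≤ D)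
  exact hK1 D x (by omega) hDx β hβ hdet (by rw [hempty, Finset.sum_empty]; positivity)
    F F' hF hF' hms

end Pool.Agent.N781.P
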