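import Mathlib
import Pool.Agent.N781.P.All
import Pool.Agent.N675.M.All
import Pool.Agent.N675.M.LamF

/-! Odd order correlations of the Liouville function along almost all prime tuples. -/

namespace Pool.Agent.N781.P

open Finset Pool.Agent.N675 Pool.Agent.N781.A

/-- the twisted functions -/
noncomputable def ft (k : ℕ) (a : Fin k → ℤ) (i0 : Fin k) (γ : ℝ) (i : Fin k) (m : ℤ) : ℂ :=
  if i = i0 then eR (γ / a i0 * m) * M.lc m else M.lc m

lemma ft_norm (k : ℕ) (a : Fin k → ℤ) (i0 : Fin k) (γ : ℝ) (i : Fin k) (m : ℤ) :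
    ‖ft k a i0 γ i m‖ ≤ 1 := by
  unfold ft
  split_ifs
  · rw [norm_mul, norm_eR, one_mul]
    exact M.lc_norm m
  · exact M.lc_norm m

lemma cc_ft (k : ℕ) (a b : Fin k → ℤ) (i0 : Fin k) (ha : a i0 ≠ 0) (γ : ℝ) (x : ℕ) (d : ℤ) :
    cc a b (ft k a i0 γ) x d = eR (γ / a i0 * (b i0 * d)) *
      M.ccg a (fun i (_ : Fin 1) => b i) (fun _ m => M.lc m) γ x (fun _ => d) := by
  unfold cc M.ccg av
  rw [mul_div_assoc', Finset.mul_sum]
  congr 1
  refine Finset.sum_congr rfl fun n _ => ?_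
  have h1 : ∏ i, ft k a i0 γ i (a i * n + b i * d)
      = eR (γ / a i0 * ((a i0 * n + b i0 * d : ℤ) : ℝ)) * ∏ i, M.lc (a i * n + b i * d) := by
    rw [← Finset.mul_prod_erase Finset.univ _ (Finset.mem_univ i0),
      ← Finset.mul_prod_erase Finset.univ (fun i => M.lc (a i * n + b i * d))
        (Finset.mem_univ i0), ← mul_assoc]
    congr 1
    · unfold ft
      rw [if_pos rfl]
    · refine Finset.prod_congr rfl fun i hi => ?_
      unfold ft
      rw [if_neg (Finset.ne_of_mem_erase hi)]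
  show ∏ i, ft k a i0 γ i (a i * n + b i * d) = _
  rw [h1, ← mul_assoc]
  congr 1
  · rw [← eR_add]
    congr 1
    have : (a i0 : ℝ) ≠ 0 := by exact_mod_cast ha
    push_cast
    field_simp
    ring
  · refine Finset.prod_congr rfl fun i _ => ?_
    unfold LL
    simp

theorem p_lam (k t : ℕ) (a b : Fin k → ℤ) (α β : Fin t → ℤ) (hk : Odd k) (ha : ∀ i, a i ≠ 0)
    (hα : ∀ j, α j ≠ 0) (hαβ : ∀ j j', j ≠ j' → α j * β j' ≠ α j' * β j) (R : ℕ) (ε : ℝ)
    (hε : 0 < ε) : ∃ K : ℕ, ∀ D x : ℕ, K ≤ D → D ≤ R * x → ∀ γ : ℝ,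
      ∑ d ∈ Icc (1 : ℤ) D, (∏ j, ArithmeticFunction.vonMangoldt (α j * d + β j).natAbs) *
        ‖M.ccg a (fun i (_ : Fin 1) => b i) (fun _ m => M.lc m) γ x (fun _ => d)‖ ≤ ε * D := by
  classical
  have hk0 : 0 < k := hk.pos
  set i0 : Fin k := ⟨0, hk0⟩ with hi0
  obtain ⟨w₀, hw₀, hw⟩ := tr' k t R 1 a b α hk0 ha hα ε hε
  set w : ℕ := w₀ + ∑ j, ∑ j', (α j' * β j - α j * β j').natAbs + 1 with hwdef
  obtain ⟨ε', K1, hε', hK1⟩ := hw w (by omega)
  obtain ⟨K2, hK2⟩ := M.tw_lam M.tw_all a (fun i (_ : Fin 1) => b i)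
    (by rwa [Fintype.card_fin]) ha R ε' hε'
  refine ⟨(K1 + K2 + ∑ j, (β j).natAbs + 1) * (R + 1), fun D x hD' hDx γ => ?_⟩
  set K0 := K1 + K2 + ∑ j, (β j).natAbs + 1 with hK0
  have hD : K0 ≤ D := le_trans (Nat.le_mul_of_pos_right _ (Nat.succ_pos R)) hD'
  have hx : K0 ≤ x := by
    by_contra hcon
    push Not at hcon
    have h1 : K0 * (R + 1) ≤ R * x := hD'.trans hDx
    have h2 : R * x ≤ R * K0 := Nat.mul_le_mul_left R hcon.le
    have h3 : K0 * (R + 1) = R * K0 + K0 := by ring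
    omega
  have hdet : ∀ j j', j ≠ j' → α j' * β j - α j * β j' ≠ 0 := by
    intro j j' hjj h
    exact hαβ j j' hjj (by linarith)
  have hempty : (do let a ← pw w D; pure (a : ℤ) : Finset ℤ).filter (fun p => ∃ j j', j ≠ j' ∧
      p ∣ α j' * β j - α j * β j') = ∅ := by
    rw [Finset.filter_eq_empty_iff]
    rintro q hq ⟨j, j', hjj, hdvd⟩
    simp only [Finset.bind_def, Finset.pure_def, Finset.mem_sup, Finset.mem_singleton] at hq
    obtain ⟨p, hp, rfl⟩ := hq
    have hp' : w < p := (Finset.mem_filter.mp hp).2.2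
    have h1 : p ≤ (α j' * β j - α j * β j').natAbs := by
      have h2 := Int.natAbs_dvd_natAbs.2 hdvd
      rw [Int.natAbs_natCast] at h2
      exact Nat.le_of_dvd (Int.natAbs_pos.2 (hdet j j' hjj)) h2
    have h2 : (α j' * β j - α j * β j').natAbs ≤ ∑ j', (α j' * β j - α j * β j').natAbs :=
      Finset.single_le_sum (f := fun j' => (α j' * β j - α j * β j').natAbs)
        (fun _ _ => Nat.zero_le _) (Finset.mem_univ j')
    have h3 : ∑ j', (α j' * β j - α j * β j').natAbs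
        ≤ ∑ j, ∑ j', (α j' * β j - α j * β j').natAbs :=
      Finset.single_le_sum (f := fun j => ∑ j', (α j' * β j - α j * β j').natAbs)
        (fun _ _ => Nat.zero_le _) (Finset.mem_univ j)
    omega
  have hβ : ∀ j, |β j| ≤ (D : ℤ) ^ 1 := by
    intro j
    have h2 : (β j).natAbs ≤ ∑ j, (β j).natAbs :=
      Finset.single_le_sum (f := fun j => (β j).natAbs) (fun _ _ => Nat.zero_le _)
        (Finset.mem_univ j)
    rw [pow_one, Int.abs_eq_natAbs]
    exact_mod_cast (by omega : (β j).natAbs ≤ D)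
  have hzero : ∀ d, cc a b (fun _ _ => (0 : ℂ)) x d = 0 := by
    intro d
    unfold cc av
    rw [Finset.sum_eq_zero, zero_div]
    intro n _
    exact Finset.prod_eq_zero (Finset.mem_univ i0) rfl
  have hnc : ∀ d, ‖cc a b (ft k a i0 γ) x d - cc a b (fun _ _ => (0 : ℂ)) x d‖
      = ‖M.ccg a (fun i (_ : Fin 1) => b i) (fun _ m => M.lc m) γ x (fun _ => d)‖ := by
    intro d
    rw [hzero, sub_zero, cc_ft k a b i0 (ha i0), norm_mul, norm_eR, one_mul]
  have hle1 : ∀ d, ‖M.ccg a (fun i (_ : Fin 1) => b i) (fun _ m => M.lc m) γ x (fun _ => d)‖ ≤ 1 := by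
    intro d
    rw [← hnc, hzero, sub_zero]
    exact cc_norm a b _ (ft_norm k a i0 γ) x d
  have hms : avr D (fun d => ‖cc a b (ft k a i0 γ) x d
      - cc a b (fun _ _ => (0 : ℂ)) x d‖ ^ 2) ≤ ε' := by
    have h1 := hK2 (fun _ => D) x (fun _ => by omega) (by omega) (fun _ => hDx) γ
    have h2 : ER (fun _ : Fin 1 => D) (fun y =>
        ‖M.ccg a (fun i (_ : Fin 1) => b i) (fun _ m => M.lc m) γ x y‖)
        = avr D fun d => ‖M.ccg a (fun i (_ : Fin 1) => b i) (fun _ m => M.lc m) γ x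
          (fun _ => d)‖ := by
      unfold ER avr
      rw [Fin.prod_univ_one]
      congr 1
      refine Finset.sum_bij' (fun y _ => y 0) (fun n _ => fun _ => n) ?_ ?_ ?_ ?_ ?_
      · intro y hy
        rw [mem_Box] at hy
        rw [Finset.mem_Icc]
        exact hy 0
      · intro n hn
        rw [Finset.mem_Icc] at hn
        rw [mem_Box]
        intro s
        exact hn
      · intro y _
        funext s
        rw [Subsingleton.elim s 0]
      · intro n _
        rfl
      · intro y _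
        congr 2
        funext s
        rw [Subsingleton.elim s 0]
    rw [h2] at h1
    refine le_trans ?_ h1
    unfold avr
    refine div_le_div_of_nonneg_right (Finset.sum_le_sum fun d _ => ?_) (Nat.cast_nonneg _)
    rw [hnc]
    have := hle1 d
    have h0 := norm_nonneg (M.ccg a (fun i (_ : Fin 1) => b i) (fun _ m => M.lc m) γ x (fun _ => d))
    nlinarith
  have hfin := hK1 D x (by omega) hDx β hβ hdet (by rw [hempty, Finset.sum_empty]; positivity)
    (ft k a i0 γ) (fun _ _ => 0) (ft_norm k a i0 γ) (fun _ _ => by simp) hms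
  refine le_of_eq_of_le (Finset.sum_congr rfl fun d _ => ?_) hfin
  rw [hnc]

end Pool.Agent.N781.P
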